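import Pool.Agent.R481.TT.Low
import Pool.Agent.R481.TT.Up
import Pool.Agent.Helper213.Sidon.Prime

/-!
# MP_98d116_co: subsets of the grid without three translated triangles

The definitions (module `Pool.Agent.R481.TT.Defs`):
* `grid n` is `{1, ..., n} × {1, ..., n}` in `ℤ × ℤ`;
* `HasThree A`: there are a set `X` with exactly three elements and three pairwise distinct
  vectors such that the three translates of `X` are contained in `A`;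
* `F n` is the largest number of elements of a subset `A` of `grid n` with `¬ HasThree A`.

The result: `F n / n ^ (4 / 3)` tends to `1`, with an explicit upper bound.
-/

set_option autoImplicit false

namespace Pool.Agent.Results.MP_98d116_co.FourThirdsAsymptotics

open Filter Topology Pool.Agent.R481.TT

theorem upper_explicit (n : ℕ) (hn : 1 ≤ n) :
    (F n : ℝ) ≤ (n : ℝ) ^ (4 / 3 : ℝ) + 171 * (n : ℝ) ^ (10 / 9 : ℝ) := by
  have hn1 : (1 : ℝ) ≤ n := by exact_mod_cast hn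
  have hn0 : (0 : ℝ) < n := by linarith
  obtain ⟨w, hw⟩ : ∃ w : ℕ, w = ⌈(n : ℝ) ^ (7 / 9 : ℝ)⌉₊ := ⟨_, rfl⟩
  have hg1 : (1 : ℝ) ≤ (n : ℝ) ^ (7 / 9 : ℝ) := Real.one_le_rpow hn1 (by norm_num)
  have hw1 : (n : ℝ) ^ (7 / 9 : ℝ) ≤ w := by rw [hw]; exact Nat.le_ceil _
  have hw2 : (w : ℝ) ≤ 2 * (n : ℝ) ^ (7 / 9 : ℝ) := by
    have := (Nat.ceil_lt_add_one (show (0 : ℝ) ≤ (n : ℝ) ^ (7 / 9 : ℝ) by positivity)).le
    rw [← hw] at this
    linarith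
  have hwn : (w : ℝ) ≤ 2 * n := by
    have : (n : ℝ) ^ (7 / 9 : ℝ) ≤ (n : ℝ) ^ (1 : ℝ) :=
      Real.rpow_le_rpow_of_exponent_le hn1 (by norm_num)
    rw [Real.rpow_one] at this
    linarith
  have hw3 : 1 ≤ w := by
    have : (1 : ℝ) ≤ w := hg1.trans hw1
    exact_mod_cast this
  have hw0 : (0 : ℝ) < w := by exact_mod_cast hw3
  have hup := upper n w hn hw3
  have hA : (0 : ℝ) < (n : ℝ) ^ (4 / 3 : ℝ) := Real.rpow_pos_of_pos hn0 _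
  -- first term
  have h1 : ((n : ℝ) + w) ^ (4 / 3 : ℝ) ≤
      (n : ℝ) ^ (4 / 3 : ℝ) + 8 * (n : ℝ) ^ (10 / 9 : ℝ) := by
    obtain ⟨x, hx⟩ : ∃ x : ℝ, x = (w : ℝ) / n := ⟨_, rfl⟩
    have hx0 : 0 ≤ x := by rw [hx]; positivity
    have hx2 : x ≤ 2 := by rw [hx, div_le_iff₀ hn0]; exact hwn
    have e1 : (n : ℝ) + w = n * (1 + x) := by rw [hx]; field_simp
    have e2 : (1 + x) ^ (4 / 3 : ℝ) ≤ 1 + 4 * x := by
      calc (1 + x) ^ (4 / 3 : ℝ) ≤ (1 + x) ^ (2 : ℝ) :=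
            Real.rpow_le_rpow_of_exponent_le (by linarith) (by norm_num)
        _ = (1 + x) ^ 2 := by exact_mod_cast Real.rpow_natCast (1 + x) 2
        _ ≤ 1 + 4 * x := by nlinarith
    rw [e1, Real.mul_rpow hn0.le (by linarith)]
    have e3 : (n : ℝ) ^ (4 / 3 : ℝ) * x ≤ 2 * (n : ℝ) ^ (10 / 9 : ℝ) := by
      have e4 : (n : ℝ) ^ (4 / 3 : ℝ) * x = (n : ℝ) ^ (1 / 3 : ℝ) * w := by
        have : (n : ℝ) ^ (4 / 3 : ℝ) = (n : ℝ) ^ (1 / 3 : ℝ) * n := by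
          rw [← Real.rpow_add_one hn0.ne']; norm_num
        rw [this, hx]; field_simp
      have e5 : (n : ℝ) ^ (10 / 9 : ℝ) = (n : ℝ) ^ (1 / 3 : ℝ) * (n : ℝ) ^ (7 / 9 : ℝ) := by
        rw [← Real.rpow_add hn0]; norm_num
      rw [e4, e5]
      have : (0 : ℝ) ≤ (n : ℝ) ^ (1 / 3 : ℝ) := by positivity
      nlinarith
    calc (n : ℝ) ^ (4 / 3 : ℝ) * (1 + x) ^ (4 / 3 : ℝ)
        ≤ (n : ℝ) ^ (4 / 3 : ℝ) * (1 + 4 * x) := mul_le_mul_of_nonneg_left e2 hA.le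
      _ = (n : ℝ) ^ (4 / 3 : ℝ) + 4 * ((n : ℝ) ^ (4 / 3 : ℝ) * x) := by ring
      _ ≤ _ := by linarith
  -- last term
  have h2 : 2 * ((n : ℝ) + w) ^ 4 / ((w : ℝ) ^ 2 * (n : ℝ) ^ (4 / 3 : ℝ)) ≤
      162 * (n : ℝ) ^ (10 / 9 : ℝ) := by
    rw [div_le_iff₀ (by positivity)]
    have e1 : ((n : ℝ) + w) ^ 4 ≤ (3 * n) ^ 4 :=
      pow_le_pow_left₀ (by positivity) (by linarith) 4
    have e2 : ((n : ℝ) ^ (7 / 9 : ℝ)) ^ 2 ≤ (w : ℝ) ^ 2 :=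
      pow_le_pow_left₀ (by positivity) hw1 2
    have e3 : (n : ℝ) ^ (10 / 9 : ℝ) * (((n : ℝ) ^ (7 / 9 : ℝ)) ^ 2 * (n : ℝ) ^ (4 / 3 : ℝ)) =
        (n : ℝ) ^ 4 := by
      rw [← Real.rpow_natCast ((n : ℝ) ^ (7 / 9 : ℝ)) 2, ← Real.rpow_mul hn0.le,
        ← Real.rpow_add hn0, ← Real.rpow_add hn0]
      norm_num
    calc 2 * ((n : ℝ) + w) ^ 4 ≤ 2 * (3 * n) ^ 4 := by linarith
      _ = 162 * ((n : ℝ) ^ (10 / 9 : ℝ) *
          (((n : ℝ) ^ (7 / 9 : ℝ)) ^ 2 * (n : ℝ) ^ (4 / 3 : ℝ))) := by rw [e3]; ring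
      _ ≤ 162 * ((n : ℝ) ^ (10 / 9 : ℝ) * ((w : ℝ) ^ 2 * (n : ℝ) ^ (4 / 3 : ℝ))) := by
          gcongr
      _ = _ := by ring
  have h3 : (1 : ℝ) ≤ (n : ℝ) ^ (10 / 9 : ℝ) := Real.one_le_rpow hn1 (by norm_num)
  linarith

theorem lower_eventually (η : ℝ) (hη : 0 < η) (hη1 : η ≤ 1 / 2) :
    ∀ᶠ n : ℕ in atTop, (1 - 2 * η) * ((n : ℝ) ^ (4 / 3 : ℝ) - 1) ≤ F n := by
  have hcast : Tendsto (fun n : ℕ => (n : ℝ)) atTop atTop := tendsto_natCast_atTop_atTop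
  have hx : Tendsto (fun n : ℕ => (1 + η) * (n : ℝ) ^ (2 / 3 : ℝ)) atTop atTop :=
    ((tendsto_rpow_atTop (by norm_num)).comp hcast).const_mul_atTop (by linarith)
  have hy : Tendsto (fun n : ℕ => (n : ℝ) ^ (1 / 3 : ℝ)) atTop atTop :=
    (tendsto_rpow_atTop (by norm_num)).comp hcast
  filter_upwards [hx.eventually (Pool.Agent.Helper213.Sidon.prime_between η hη),
    hx.eventually_ge_atTop 3, hy.eventually_ge_atTop ((1 + η) / η), eventually_ge_atTop 1]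
    with n hp hx3 hyn hn
  obtain ⟨p, hpp, hp1, hp2⟩ := hp
  have hn1 : (1 : ℝ) ≤ n := by exact_mod_cast hn
  have hn0 : (0 : ℝ) < n := by linarith
  have : Fact p.Prime := ⟨hpp⟩
  obtain ⟨y, hyd⟩ : ∃ y : ℝ, y = (n : ℝ) ^ (1 / 3 : ℝ) := ⟨_, rfl⟩
  have hy0 : 0 < y := by rw [hyd]; exact Real.rpow_pos_of_pos hn0 _
  have hy2 : (n : ℝ) ^ (2 / 3 : ℝ) = y ^ 2 := by
    rw [hyd, ← Real.rpow_natCast, ← Real.rpow_mul hn0.le]; norm_num
  have hy3 : (n : ℝ) = y ^ 3 := by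
    rw [hyd, ← Real.rpow_natCast, ← Real.rpow_mul hn0.le]; norm_num
  have hy4 : (n : ℝ) ^ (4 / 3 : ℝ) = y ^ 4 := by
    rw [hyd, ← Real.rpow_natCast, ← Real.rpow_mul hn0.le]; norm_num
  rw [hy2] at hp1 hp2 hx3
  rw [← hyd] at hyn
  have hyη : 1 + η ≤ y * η := by rwa [div_le_iff₀ hη] at hyn
  have hpne : p ≠ 2 := by
    intro h
    rw [h] at hp1
    norm_num at hp1
    linarith
  have hp0 : (0 : ℝ) < p := by exact_mod_cast hpp.pos
  have hpge : 1 ≤ p := hpp.one_lt.le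
  obtain ⟨r, hr⟩ : ∃ r : ℕ, r = n / p + 1 := ⟨_, rfl⟩
  have hnr : n ≤ r * p := by
    rw [hr]
    have := Nat.div_add_mod n p
    have h2 := Nat.mod_lt n hpp.pos
    nlinarith
  have hry : (r : ℝ) ≤ y := by
    have h1 : ((n / p : ℕ) : ℝ) ≤ (n : ℝ) / p := Nat.cast_div_le
    have h2 : (n : ℝ) / p ≤ y / (1 + η) := by
      rw [div_le_div_iff₀ hp0 (by linarith), hy3]
      have : y * ((1 + η) * y ^ 2) ≤ y * p := mul_le_mul_of_nonneg_left hp1.le hy0.le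
      calc y ^ 3 * (1 + η) = y * ((1 + η) * y ^ 2) := by ring
        _ ≤ y * p := this
    have h3 : y / (1 + η) + 1 ≤ y := by
      rw [div_add_one (by linarith), div_le_iff₀ (by linarith)]
      nlinarith
    rw [hr]
    push_cast
    linarith
  have hr0 : (0 : ℝ) ≤ r := by positivity
  have hr2y : (r : ℝ) ^ 2 ≤ y ^ 2 := pow_le_pow_left₀ hr0 hry 2
  have hrp : r ^ 2 ≤ p - 1 := by
    have h1 : (r : ℝ) ^ 2 + 1 ≤ p := by
      have : 1 ≤ η * y ^ 2 := by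
        have h4 : 1 ≤ y * η := by linarith
        have h5 : 1 ≤ y := by nlinarith
        nlinarith
      nlinarith
    have h2 : r ^ 2 + 1 ≤ p := by exact_mod_cast h1
    omega
  have hlow := lower (p := p) hpne n r hnr hrp
  have hlow' : (n : ℝ) ^ 2 ≤ F n * ((p : ℝ) - 1) + (r : ℝ) ^ 2 := by
    have : ((n ^ 2 : ℕ) : ℝ) ≤ ((F n * (p - 1) + r ^ 2 : ℕ) : ℝ) := by exact_mod_cast hlow
    push_cast [Nat.cast_sub hpge] at this
    exact this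
  have hF0 : (0 : ℝ) ≤ F n := by positivity
  have h6 : y ^ 2 * (y ^ 4 - 1) ≤ F n * ((1 + η) ^ 2 * y ^ 2) := by
    have h7 : (n : ℝ) ^ 2 = y ^ 6 := by rw [hy3]; ring
    have h8 : (F n : ℝ) * ((p : ℝ) - 1) ≤ F n * ((1 + η) ^ 2 * y ^ 2) := by
      apply mul_le_mul_of_nonneg_left _ hF0
      nlinarith
    nlinarith
  have h9 : y ^ 4 - 1 ≤ F n * (1 + η) ^ 2 := by
    have : 0 < y ^ 2 := by positivity
    have h10 : y ^ 2 * (y ^ 4 - 1) ≤ y ^ 2 * (F n * (1 + η) ^ 2) := by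
      calc y ^ 2 * (y ^ 4 - 1) ≤ F n * ((1 + η) ^ 2 * y ^ 2) := h6
        _ = _ := by ring
    exact le_of_mul_le_mul_left h10 this
  rw [hy4]
  have h11 : (1 - 2 * η) * (1 + η) ^ 2 ≤ 1 := by nlinarith [sq_nonneg η, mul_pos hη hη]
  have h12 : 0 ≤ 1 - 2 * η := by linarith
  calc (1 - 2 * η) * (y ^ 4 - 1) ≤ (1 - 2 * η) * (F n * (1 + η) ^ 2) :=
        mul_le_mul_of_nonneg_left h9 h12
    _ = F n * ((1 - 2 * η) * (1 + η) ^ 2) := by ring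
    _ ≤ F n * 1 := mul_le_mul_of_nonneg_left h11 hF0
    _ = F n := mul_one _

/-- The maximal number of elements of a subset of the `n × n` grid without three translated
triangles is asymptotic to `n ^ (4 / 3)`; moreover it is at most
`n ^ (4 / 3) + 171 * n ^ (10 / 9)`. -/
theorem result : Tendsto (fun n : ℕ => (F n : ℝ) / (n : ℝ) ^ (4 / 3 : ℝ)) atTop (𝓝 1) ∧
    ∀ n : ℕ, 1 ≤ n → (F n : ℝ) ≤ (n : ℝ) ^ (4 / 3 : ℝ) + 171 * (n : ℝ) ^ (10 / 9 : ℝ) := by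
  refine ⟨?_, upper_explicit⟩
  have hcast : Tendsto (fun n : ℕ => (n : ℝ)) atTop atTop := tendsto_natCast_atTop_atTop
  rw [tendsto_order]
  constructor
  · intro a ha
    obtain ⟨η, hη⟩ : ∃ η : ℝ, η = min ((1 - a) / 4) (1 / 2) := ⟨_, rfl⟩
    have hη0 : 0 < η := by rw [hη]; exact lt_min (by linarith) (by norm_num)
    have hη1 : η ≤ 1 / 2 := by rw [hη]; exact min_le_right _ _
    have hη2 : η ≤ (1 - a) / 4 := by rw [hη]; exact min_le_left _ _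
    have hbig : ∀ᶠ n : ℕ in atTop, 2 / (1 - a) < ((n : ℕ) : ℝ) ^ (4 / 3 : ℝ) :=
      ((tendsto_rpow_atTop (by norm_num)).comp hcast).eventually_gt_atTop _
    filter_upwards [lower_eventually η hη0 hη1, hbig, eventually_ge_atTop 1] with n h1 h2 h3
    have hn0 : (0 : ℝ) < n := by exact_mod_cast h3
    have hA : (0 : ℝ) < (n : ℝ) ^ (4 / 3 : ℝ) := Real.rpow_pos_of_pos hn0 _
    rw [lt_div_iff₀ hA]
    rw [div_lt_iff₀ (by linarith)] at h2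
    have h4 : 0 ≤ 1 - 2 * η := by linarith
    nlinarith
  · intro a ha
    have hbig : ∀ᶠ n : ℕ in atTop, 171 / (a - 1) < ((n : ℕ) : ℝ) ^ (2 / 9 : ℝ) :=
      ((tendsto_rpow_atTop (by norm_num)).comp hcast).eventually_gt_atTop _
    filter_upwards [hbig, eventually_ge_atTop 1] with n h2 h3
    have hn0 : (0 : ℝ) < n := by exact_mod_cast h3
    have hA : (0 : ℝ) < (n : ℝ) ^ (4 / 3 : ℝ) := Real.rpow_pos_of_pos hn0 _
    have hB : (0 : ℝ) < (n : ℝ) ^ (10 / 9 : ℝ) := Real.rpow_pos_of_pos hn0 _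
    have hAB : (n : ℝ) ^ (4 / 3 : ℝ) = (n : ℝ) ^ (2 / 9 : ℝ) * (n : ℝ) ^ (10 / 9 : ℝ) := by
      rw [← Real.rpow_add hn0]; norm_num
    rw [div_lt_iff₀ hA]
    rw [div_lt_iff₀ (by linarith)] at h2
    have h4 := upper_explicit n h3
    have h5 : 171 * (n : ℝ) ^ (10 / 9 : ℝ) < (a - 1) * (n : ℝ) ^ (4 / 3 : ℝ) := by
      rw [hAB]
      calc 171 * (n : ℝ) ^ (10 / 9 : ℝ)
          < ((n : ℝ) ^ (2 / 9 : ℝ) * (a - 1)) * (n : ℝ) ^ (10 / 9 : ℝ) :=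
            mul_lt_mul_of_pos_right h2 hB
        _ = _ := by ring
    linarith

end Pool.Agent.Results.MP_98d116_co.FourThirdsAsymptotics
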